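import Pool.Agent.helper5.LDH.Spec

/-!
# Project LDH (MP_4467b5_nt), row MVW: the mean value over well spaced points
-/

set_option autoImplicit false

open Complex MeasureTheory

namespace Pool.Agent.LDH

open Pool.Agent.helper84.DM Pool.Agent.helper78.ED Pool.Agent.DH

theorem MVW (hSOB : SOB_stmt) (hMSQ : MSQ_stmt) (hWTJ : WTJ_stmt) : MVW_stmt := by
  obtain ⟨C, hC, hM⟩ := hMSQ
  refine ⟨180 * C, by positivity, ?_⟩
  intro T H σ N j W hT hTH hHT hσ hHN hNT hW hsep
  have hH1 : 1 ≤ H := (Real.one_le_rpow hT (by norm_num)).trans hTH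
  have hN1 : 1 ≤ N := by
    by_contra h
    have h0 : N = 0 := by omega
    rw [h0, Nat.cast_zero] at hHN
    linarith
  obtain ⟨hw, -, hl⟩ := hWTJ N j σ hN1 hσ
  obtain ⟨hw', -, -⟩ := hWTJ N (j + 1) σ hN1 hσ
  have h1 := hSOB N (ww N σ j) H T W hN1 hH1 (fun s hs => by
    obtain ⟨h2, h3⟩ := hW s hs
    rw [abs_le]
    constructor <;> linarith) hsep
  have hfun : (fun n => ww N σ j n * Real.log ((n : ℝ) / N)) = ww N σ (j + 1) := funext hl
  rw [hfun] at h1
  have h2 := hM T H 2 N (ww N σ j) hT hTH hHT hHN hNT (by norm_num) hw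
  have h3 := hM T H 2 N (ww N σ (j + 1)) hT hTH hHT hHN hNT (by norm_num) hw'
  linarith

end Pool.Agent.LDH
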